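import Pool.Agent.Y546.WQ.Stm3

/-!
# POLE: `f` is palindromic if there are few irregular indices (project WH of helper546)
-/

set_option autoImplicit false

namespace Pool.Agent.Y590.WQ

open Pool.Agent.Y546.WQ Polynomial

section

variable {p : ℕ} [Fact p.Prime]

theorem reflect_natDegree_le {m : ℕ} {f : Polynomial (ZMod p)} (hf : f.natDegree ≤ m) :
    (f.reflect m).natDegree ≤ m := by
  rw [natDegree_le_iff_coeff_eq_zero]
  intro N hN
  rw [coeff_reflect, revAt_eq_self_of_lt hN]
  exact coeff_eq_zero_of_natDegree_lt (hf.trans_lt hN)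

theorem reflect_coeff_top {m : ℕ} (f : Polynomial (ZMod p)) :
    (f.reflect m).coeff m = f.coeff 0 := by
  rw [coeff_reflect, revAt_le le_rfl, Nat.sub_self]

theorem reflect_coeff_zero {m : ℕ} (f : Polynomial (ZMod p)) :
    (f.reflect m).coeff 0 = f.coeff m := by
  rw [coeff_reflect, revAt_le (Nat.zero_le m), Nat.sub_zero]

theorem reflect_eval_one {m : ℕ} {f : Polynomial (ZMod p)} (hf : f.natDegree ≤ m) :
    (f.reflect m).eval 1 = f.eval 1 := by
  let _ : Invertible (1 : ZMod p) := invertibleOne
  have h := eval₂_reflect_mul_pow (RingHom.id (ZMod p)) (1 : ZMod p) m f hf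
  rw [invOf_one, one_pow, mul_one] at h
  exact h

theorem DD_natDegree_le {m : ℕ} (hm : 0 < m) {f : Polynomial (ZMod p)} (hf : f.natDegree ≤ m) :
    (DD f).natDegree ≤ m := by
  unfold DD
  refine natDegree_mul_le.trans ?_
  have h1 := natDegree_derivative_le f
  rw [natDegree_X]
  omega

theorem DD_coeff_zero (f : Polynomial (ZMod p)) : (DD f).coeff 0 = 0 := by
  unfold DD
  rw [mul_coeff_zero, coeff_X_zero, zero_mul]

theorem Wf_natDegree_le {m : ℕ} (hm : 0 < m) {f : Polynomial (ZMod p)} (hf : f.natDegree ≤ m) :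
    (Wf m f).natDegree ≤ 2 * m := by
  unfold Wf
  have h1 : (f.reflect m * DD f).natDegree ≤ 2 * m :=
    (natDegree_mul_le_of_le (reflect_natDegree_le hf) (DD_natDegree_le hm hf)).trans (by omega)
  have h2 : (f * DD (f.reflect m)).natDegree ≤ 2 * m :=
    (natDegree_mul_le_of_le hf (DD_natDegree_le hm (reflect_natDegree_le hf))).trans (by omega)
  exact (natDegree_sub_le_of_le h1 h2).trans (max_self _).le

theorem Vf_natDegree_le {m : ℕ} {f : Polynomial (ZMod p)} (hf : f.natDegree ≤ m) :
    (Vf m f).natDegree ≤ 2 * m := by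
  unfold Vf
  exact (natDegree_mul_le_of_le hf (reflect_natDegree_le hf)).trans (by omega)

theorem Vf_natDegree {m : ℕ} {f : Polynomial (ZMod p)} (hf : f.natDegree ≤ m)
    (h0 : f.coeff 0 ≠ 0) (hm : f.coeff m ≠ 0) : (Vf m f).natDegree = 2 * m := by
  have h1 : f.natDegree = m := le_antisymm hf (le_natDegree_of_ne_zero hm)
  have h2 : (f.reflect m).natDegree = m := le_antisymm (reflect_natDegree_le hf)
    (le_natDegree_of_ne_zero (by rw [reflect_coeff_top]; exact h0))
  unfold Vf
  rw [natDegree_mul, h1, h2]
  · ring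
  · intro h
    rw [h, coeff_zero] at h0
    exact h0 rfl
  · intro h
    apply h0
    rw [← reflect_coeff_top (m := m) f, h, coeff_zero]

theorem comp_pow_natDegree_le {D : ℕ} {V : Polynomial (ZMod p)} (hV : V.natDegree ≤ D) (k : ℕ) :
    (V.comp (X ^ k)).natDegree ≤ D * k := by
  refine natDegree_comp_le.trans ?_
  rw [natDegree_X_pow]
  exact Nat.mul_le_mul_right k hV

theorem prod_natDegree_le {D : ℕ} {V : Polynomial (ZMod p)} (hV : V.natDegree ≤ D)
    (s : Finset ℕ) : (∏ k ∈ s, V.comp (X ^ k)).natDegree ≤ ∑ k ∈ s, D * k :=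
  (natDegree_prod_le s _).trans (Finset.sum_le_sum fun k _ => comp_pow_natDegree_le hV k)

theorem Lin_natDegree_le {D n : ℕ} {W V : Polynomial (ZMod p)} (hW : W.natDegree ≤ D)
    (hV : V.natDegree ≤ D) (b : ℕ → ZMod p) (d : ZMod p) :
    (Lin n W V b d).natDegree ≤ ∑ k ∈ Finset.Icc 1 n, D * k := by
  unfold Lin
  have h1 : (∑ i ∈ Finset.Icc 1 n, Polynomial.C (b i) * W.comp (X ^ i) *
      ∏ k ∈ (Finset.Icc 1 n).erase i, V.comp (X ^ k)).natDegree ≤
      ∑ k ∈ Finset.Icc 1 n, D * k := by
    refine natDegree_sum_le_of_forall_le _ _ fun i hi => ?_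
    have h1 : (Polynomial.C (b i) * W.comp (X ^ i)).natDegree ≤ D * i :=
      (natDegree_C_mul_le _ _).trans (comp_pow_natDegree_le hW i)
    refine (natDegree_mul_le_of_le h1 (prod_natDegree_le hV _)).trans ?_
    rw [Finset.add_sum_erase (Finset.Icc 1 n) (fun k => D * k) hi]
  have h2 : (Polynomial.C d * ∏ k ∈ Finset.Icc 1 n, V.comp (X ^ k)).natDegree ≤
      ∑ k ∈ Finset.Icc 1 n, D * k :=
    (natDegree_C_mul_le _ _).trans (prod_natDegree_le hV _)
  exact (natDegree_sub_le_of_le h1 h2).trans (max_self _).le

theorem sum_Icc (m n : ℕ) : ∑ k ∈ Finset.Icc 1 n, 2 * m * k = m * (n * (n + 1)) := by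
  induction n with
  | zero => simp
  | succ n ih =>
    rw [Finset.sum_Icc_succ_top (by omega), ih]
    ring

/-- two polynomials of small degree with proportional derivatives are proportional -/
theorem prop_of_wronskian {m : ℕ} (hmp : m < p) {f g : Polynomial (ZMod p)}
    (hf : f.natDegree ≤ m) (hg : g.natDegree ≤ m) (hg0 : g.coeff 0 ≠ 0)
    (hw : g * derivative f = f * derivative g) :
    Polynomial.C (g.coeff 0) * f = Polynomial.C (f.coeff 0) * g := by
  set h : Polynomial (ZMod p) := Polynomial.C (g.coeff 0) * f - Polynomial.C (f.coeff 0) * g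
    with hh
  have h1 : g * derivative h = h * derivative g := by
    rw [hh, derivative_sub, derivative_C_mul, derivative_C_mul]
    linear_combination Polynomial.C (g.coeff 0) * hw
  have h2 : ∀ k, h.coeff k = 0 := by
    intro k
    induction k using Nat.strong_induction_on with
    | _ k ih =>
      rcases Nat.eq_zero_or_pos k with hk | hk
      · rw [hk, hh, coeff_sub, coeff_C_mul, coeff_C_mul]
        ring
      · rcases lt_or_ge m k with hmk | hmk
        · rw [hh, coeff_sub, coeff_C_mul, coeff_C_mul,
            coeff_eq_zero_of_natDegree_lt (hf.trans_lt hmk),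
            coeff_eq_zero_of_natDegree_lt (hg.trans_lt hmk)]
          ring
        · obtain ⟨j, rfl⟩ : ∃ j, k = j + 1 := ⟨k - 1, by omega⟩
          have h3 : (g * derivative h).coeff j = (h * derivative g).coeff j := by rw [h1]
          rw [coeff_mul, coeff_mul] at h3
          have h4 : ∑ x ∈ Finset.HasAntidiagonal.antidiagonal j, h.coeff x.1 * (derivative g).coeff x.2 = 0 := by
            refine Finset.sum_eq_zero fun x hx => ?_
            rw [Finset.HasAntidiagonal.mem_antidiagonal] at hx
            rw [ih x.1 (by omega), zero_mul]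
          rw [h4] at h3
          rw [Finset.sum_eq_single (0, j)] at h3
          · rw [coeff_derivative] at h3
            have h5 : ((j : ZMod p) + 1) ≠ 0 := by
              intro h6
              have h7 : ((j + 1 : ℕ) : ZMod p) = 0 := by push_cast; exact h6
              rw [ZMod.natCast_eq_zero_iff] at h7
              exact absurd (Nat.le_of_dvd (Nat.succ_pos j) h7) (by omega)
            rcases mul_eq_zero.1 h3 with h6 | h6
            · exact absurd h6 hg0
            · exact (mul_eq_zero.1 h6).resolve_right h5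
          · intro x hx hne
            rw [Finset.HasAntidiagonal.mem_antidiagonal] at hx
            have h6 : x.2 < j := by
              rcases Nat.eq_zero_or_pos x.1 with h7 | h7
              · exfalso
                apply hne
                ext
                · exact h7
                · change x.2 = j
                  omega
              · omega
            rw [coeff_derivative, ih (x.2 + 1) (by omega), zero_mul, mul_zero]
          · intro hne
            exact absurd (Finset.HasAntidiagonal.mem_antidiagonal.2 (zero_add j)) hne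
  have h3 : h = 0 := by
    ext k
    rw [h2 k, coeff_zero]
  exact sub_eq_zero.1 h3

end

theorem mainPOLE (h1 : S_POLE1) (h2 : S_POLE2) : S_POLE := by
  intro p _ m f J hm hf h0 hmm he hR hJ hp
  set n := J.card + 1 with hn
  have hn1 : 1 ≤ n := by omega
  have hmn : 1 * (1 * 2) ≤ m * (n * (n + 1)) :=
    Nat.mul_le_mul hm (Nat.mul_le_mul hn1 (by omega))
  have hnle : n ≤ m * (n * (n + 1)) := by
    calc n = 1 * (n * 1) := by ring
      _ ≤ m * (n * (n + 1)) := Nat.mul_le_mul hm (Nat.mul_le_mul le_rfl (by omega))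
  have hmle : m ≤ m * (n * (n + 1)) := by
    calc m = m * (1 * 1) := by ring
      _ ≤ m * (n * (n + 1)) := Nat.mul_le_mul le_rfl (Nat.mul_le_mul hn1 (by omega))
  have hp' : m * (n * (n + 1)) + 3 ≤ p := hp
  obtain ⟨b, d, hb, hdvd⟩ := h1 p m f J (by omega) hf he hR hJ (by omega)
  have hW := Wf_natDegree_le hm hf
  have hV := Vf_natDegree_le hf
  have hL : Lin n (Wf m f) (Vf m f) b d = 0 := by
    refine eq_zero_of_dvd_of_natDegree_lt hdvd ?_
    have h3 := Lin_natDegree_le (n := n) hW hV b d
    rw [sum_Icc] at h3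
    refine h3.trans_lt ?_
    have h4 : (X - 1 : Polynomial (ZMod p)) = X - Polynomial.C 1 := by rw [C_1]
    rw [h4, natDegree_pow, natDegree_X_sub_C]
    omega
  have hVc : (Vf m f).coeff 0 ≠ 0 := by
    unfold Vf
    rw [mul_coeff_zero, reflect_coeff_zero]
    exact mul_ne_zero h0 hmm
  have hWc : (Wf m f).coeff 0 = 0 := by
    unfold Wf
    rw [coeff_sub, mul_coeff_zero, mul_coeff_zero, DD_coeff_zero, DD_coeff_zero]
    ring
  have hW0 : Wf m f = 0 := h2 p n (Wf m f) (Vf m f) b d (by omega)
    (by rw [Vf_natDegree hf h0 hmm]; exact hW) hVc hWc hb hL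
  have hw : f.reflect m * derivative f = f * derivative (f.reflect m) := by
    have h3 : X * (f.reflect m * derivative f - f * derivative (f.reflect m)) = 0 := by
      rw [← hW0]
      unfold Wf DD
      ring
    rcases mul_eq_zero.1 h3 with h4 | h4
    · exact absurd h4 X_ne_zero
    · exact sub_eq_zero.1 h4
  have hprop := prop_of_wronskian (m := m) (by omega) hf (reflect_natDegree_le hf)
    (by rw [reflect_coeff_zero]; exact hmm) hw
  rw [reflect_coeff_zero] at hprop
  have h3 := congrArg (fun q => eval 1 q) hprop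
  simp only [eval_mul, eval_C] at h3
  rw [reflect_eval_one hf] at h3
  have h4 : f.coeff m = f.coeff 0 := mul_right_cancel₀ he h3
  rw [h4] at hprop
  exact (mul_left_cancel₀ (C_ne_zero.2 h0) hprop).symm

end Pool.Agent.Y590.WQ
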